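import Pool.Agent.Helper52.KT.St

set_option autoImplicit false

namespace Pool.Agent.Helper77.KT

open Pool.Agent.Helper26.Kempe Pool.Agent.Helper52.KT Pool.Agent.Helper52.KT.St
open Pool.Agent.Helper52.KR (N Zc Mn Hs)
open scoped Classical

theorem Wt_nonneg {V : Type} {w : V → V → ℝ} {ρ : V → ℝ} (hw : ∀ a b, 0 ≤ w a b)
    (hρ : ∀ z, 0 < ρ z) : ∀ P : List V, 0 ≤ Wt w ρ P
  | [] => by simp [Wt]
  | [_] => by simp [Wt]
  | b :: a :: L => by
    simp only [Wt]
    exact mul_nonneg (div_nonneg (hw _ _) (hρ _).le) (Wt_nonneg hw hρ (a :: L))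

theorem hA3 : A3 := by
  intro V _ v e w ρ h t hw hρ hh
  have hsum : ∑ P ∈ Ex e [v] (t + 1), Wt w ρ P =
      ∑ P ∈ Ex e [v] t, Wt w ρ P * ((∑ b ∈ e P, w (hd v P) b) / ρ (hd v P)) := by
    have hdis : ∀ P ∈ Ex e [v] t, ∀ Q ∈ Ex e [v] t, P ≠ Q →
        Disjoint ((e P).image (fun b => b :: P)) ((e Q).image (fun b => b :: Q)) := by
      intro P _ Q _ hPQ
      rw [Finset.disjoint_left]
      intro R h1 h2
      obtain ⟨b, _, rfl⟩ := Finset.mem_image.1 h1
      obtain ⟨b', _, h3⟩ := Finset.mem_image.1 h2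
      exact hPQ (List.cons.inj h3).2.symm
    simp only [Ex]
    rw [Finset.sum_biUnion hdis]
    apply Finset.sum_congr rfl
    intro P hP
    rw [Finset.sum_image (by intro a _ b _ hab; exact (List.cons.inj hab).1)]
    have hl := Ex_length hP
    cases P with
    | nil => simp only [List.length_nil, List.length_singleton] at hl; omega
    | cons z L =>
      simp only [hd, Wt]
      rw [Finset.sum_div, Finset.mul_sum]
      apply Finset.sum_congr rfl
      intro b _
      ring
  rw [hsum]
  calc ∑ P ∈ (Ex e [v] t).filter h, Wt w ρ P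
      ≤ ∑ P ∈ (Ex e [v] t).filter h,
          Wt w ρ P * ((∑ b ∈ e P, w (hd v P) b) / ρ (hd v P)) := by
        apply Finset.sum_le_sum
        intro P hP
        rw [Finset.mem_filter] at hP
        have h1 : 1 ≤ (∑ b ∈ e P, w (hd v P) b) / ρ (hd v P) := by
          rw [one_le_div (hρ _)]
          exact hh P hP.1 hP.2
        have h2 := Wt_nonneg hw hρ P
        nlinarith
    _ ≤ _ := by
        apply Finset.sum_le_sum_of_subset_of_nonneg (Finset.filter_subset _ _)
        intro P _ _
        apply mul_nonneg (Wt_nonneg hw hρ P)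
        exact div_nonneg (Finset.sum_nonneg (fun b _ => hw _ _)) (hρ _).le

end Pool.Agent.Helper77.KT
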