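import Pool.Agent.Helper52.KT.St

set_option autoImplicit false

namespace Pool.Agent.Helper77.KT

open Pool.Agent.Helper26.Kempe Pool.Agent.Helper52.KT Pool.Agent.Helper52.KT.St
open Pool.Agent.Helper52.KR (N Zc Mn Hs)

theorem hNL : NL := by
  intro V _ k G W M f o z y0 L c x n hf hv hcz hcy hC hn hx hk
  obtain ⟨harc, hzT, _, _⟩ := vd_cons.1 hv
  have hadj : G.Adj y0 z := harc.1
  have hxc := Wk_col hx
  refine ⟨?_, ?_⟩
  · intro hmem
    rcases List.mem_cons.1 hmem with rfl | hL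
    · rcases hxc with h | h
      · exact hf x z hadj h
      · exact hcy h.symm
    · obtain ⟨m, u, L', hm⟩ := mem_drop (y := y0) hL
      apply hC m
      rw [hm, Cx_cons]
      refine Or.inr ⟨n, hn, x, hx, Or.inl ⟨rfl, ?_⟩⟩
      rintro rfl
      exact hzT (List.mem_cons_of_mem _ hL)
  · intro hF
    rcases mem_Fb_cons.1 hF with ⟨κ, hκ, hκx, h⟩ | h
    · exact hk κ hκ hκx h.symm
    · obtain ⟨m, u, a, L', hm, κ, hκ, hκx, h⟩ := Fb_drop h
      apply hC m
      rw [hm, Cx_cons]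
      exact Or.inr ⟨n, hn, x, hx, Or.inr ⟨κ, hκ, hκx, h.symm⟩⟩

end Pool.Agent.Helper77.KT
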