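import Pool.Agent.Helper52.KT.St

set_option autoImplicit false

namespace Pool.Agent.Helper77.KT

open Pool.Agent.Helper26.Kempe Pool.Agent.Helper52.KT Pool.Agent.Helper52.KT.St
open Pool.Agent.Helper52.KR (N Zc Mn Hs)
open scoped Classical

theorem hWC : WC := by
  intro V _ k G f M hf n
  induction n with
  | zero =>
    intro x c0
    simp only [pow_zero]
    rw [Finset.card_le_one]
    rintro ⟨z, c⟩ h1 ⟨z', c'⟩ h2
    simp only [Finset.mem_filter, Finset.mem_univ, true_and, Wk, Finset.mem_singleton] at h1 h2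
    obtain ⟨_, rfl, h3⟩ := h1
    obtain ⟨_, rfl, h4⟩ := h2
    rw [Equiv.swap_apply_left] at h3 h4
    rw [h3, h4]
  | succ n ih =>
    intro x c0
    by_cases hS : (S G f x c0).card ≤ M + 1
    · have hsub : ((Finset.univ : Finset (V × Fin k)).filter (fun p => p.2 ≠ f p.1 ∧
          x ∈ Wk G f M p.1 p.2 (n + 1) ∧ Equiv.swap (f p.1) p.2 (f x) = c0)) ⊆
          (S G f x c0).biUnion (fun y => (Finset.univ : Finset (V × Fin k)).filter
            (fun p => p.2 ≠ f p.1 ∧ y ∈ Wk G f M p.1 p.2 n ∧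
              Equiv.swap (f p.1) p.2 (f y) = f x)) := by
        rintro ⟨z, c⟩ hp
        simp only [Finset.mem_filter, Finset.mem_univ, true_and] at hp
        obtain ⟨h1, h2, h3⟩ := hp
        obtain ⟨y, hy, hyx, hxc, _⟩ := mem_Wk_succ.1 h2
        have hyc := Wk_col hy
        have e1 : f y = Equiv.swap (f z) c (f x) := swap_of_adj hf hyx.symm hxc hyc
        have e2 : f x = Equiv.swap (f z) c (f y) := swap_of_adj hf hyx hyc hxc
        simp only [Finset.mem_biUnion, Finset.mem_filter, Finset.mem_univ, true_and]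
        exact ⟨y, mem_S.2 ⟨hyx.symm, e1.trans h3⟩, h1, hy, e2.symm⟩
      calc _ ≤ _ := Finset.card_le_card hsub
        _ ≤ ∑ y ∈ S G f x c0, _ := Finset.card_biUnion_le
        _ ≤ ∑ y ∈ S G f x c0, (M + 1) ^ n := Finset.sum_le_sum (fun y _ => ih y (f x))
        _ = (S G f x c0).card * (M + 1) ^ n := by simp
        _ ≤ (M + 1) * (M + 1) ^ n := Nat.mul_le_mul_right _ hS
        _ = (M + 1) ^ (n + 1) := by ring
    · have hem : ((Finset.univ : Finset (V × Fin k)).filter (fun p => p.2 ≠ f p.1 ∧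
          x ∈ Wk G f M p.1 p.2 (n + 1) ∧ Equiv.swap (f p.1) p.2 (f x) = c0)) = ∅ := by
        rw [Finset.eq_empty_iff_forall_notMem]
        rintro ⟨z, c⟩ hp
        simp only [Finset.mem_filter, Finset.mem_univ, true_and] at hp
        obtain ⟨h1, h2, h3⟩ := hp
        obtain ⟨y, hy, hyx, hxc, hc⟩ := mem_Wk_succ.1 h2
        have e1 : f y = Equiv.swap (f z) c (f x) := swap_of_adj hf hyx.symm hxc (Wk_col hy)
        rw [e1, h3] at hc
        exact hS hc
      rw [hem]
      simp

end Pool.Agent.Helper77.KT
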